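import Pool.Agent.H27.ZF.TA

/-!
Board zf (MP_52e316_nt), row SOB: sup of an entire function over a rectangle from mean squares.
-/

set_option autoImplicit false

namespace Pool.Agent.H1.ZF

open MeasureTheory

lemma sob_real (g g' : ℝ → ℂ) (hg : ∀ x, HasDerivAt g (g' x) x) (hc : Continuous g')
    (a b x0 : ℝ) (hab : a < b) (ha : a ≤ x0) (hb : x0 ≤ b) :
    ‖g x0‖ ^ 2 ≤ (1 + 1 / (b - a)) * ∫ x in Set.Icc a b, (‖g x‖ ^ 2 + ‖g' x‖ ^ 2) := by
  have hcg : Continuous g := continuous_iff_continuousAt.2 (fun x => (hg x).continuousAt)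
  have hhd : ∀ x, HasDerivAt (fun x => ‖g x‖ ^ 2) (2 * inner ℝ (g x) (g' x)) x :=
    fun x => (hg x).norm_sq
  have hck : Continuous (fun x => ‖g x‖ ^ 2 + ‖g' x‖ ^ 2) := by fun_prop
  have hch : Continuous (fun x => ‖g x‖ ^ 2) := by fun_prop
  have hbd : ∀ x, ‖2 * inner ℝ (g x) (g' x)‖ ≤ ‖g x‖ ^ 2 + ‖g' x‖ ^ 2 := by
    intro x
    rw [Real.norm_eq_abs, abs_mul, abs_two]
    have h1 := abs_real_inner_le_norm (g x) (g' x)
    have h2 := two_mul_le_add_sq ‖g x‖ ‖g' x‖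
    nlinarith
  have hIi : IntegrableOn (fun x => ‖g x‖ ^ 2 + ‖g' x‖ ^ 2) (Set.Icc a b) := hck.integrableOn_Icc
  have hmove : ∀ x ∈ Set.Icc a b, ‖g x0‖ ^ 2 ≤
      ‖g x‖ ^ 2 + ∫ x in Set.Icc a b, (‖g x‖ ^ 2 + ‖g' x‖ ^ 2) := by
    intro x hx
    have hci : Continuous (fun y => 2 * inner ℝ (g y) (g' y)) :=
      continuous_const.mul (hcg.inner hc)
    have h1 : ∫ y in x..x0, 2 * inner ℝ (g y) (g' y) = ‖g x0‖ ^ 2 - ‖g x‖ ^ 2 :=
      intervalIntegral.integral_eq_sub_of_hasDerivAt (fun y _ => hhd y) (hci.intervalIntegrable _ _)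
    have h2 : ‖∫ y in x..x0, 2 * inner ℝ (g y) (g' y)‖ ≤
        ∫ y in Set.uIoc x x0, ‖2 * inner ℝ (g y) (g' y)‖ :=
      intervalIntegral.norm_integral_le_integral_norm_uIoc
    have hsub : Set.uIoc x x0 ⊆ Set.Icc a b := by
      intro y hy
      rw [Set.uIoc, Set.mem_Ioc] at hy
      have h3 : a ≤ min x x0 := le_min hx.1 ha
      have h4 : max x x0 ≤ b := max_le hx.2 hb
      exact ⟨by linarith [hy.1], by linarith [hy.2]⟩
    have h3 : ∫ y in Set.uIoc x x0, ‖2 * inner ℝ (g y) (g' y)‖ ≤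
        ∫ y in Set.uIoc x x0, (‖g y‖ ^ 2 + ‖g' y‖ ^ 2) := by
      refine setIntegral_mono ?_ (hIi.mono_set hsub) hbd
      exact (hci.norm.integrableOn_Icc (a := a) (b := b)).mono_set hsub
    have h4 : ∫ y in Set.uIoc x x0, (‖g y‖ ^ 2 + ‖g' y‖ ^ 2) ≤
        ∫ y in Set.Icc a b, (‖g y‖ ^ 2 + ‖g' y‖ ^ 2) := by
      refine setIntegral_mono_set hIi ?_ (LE.le.eventuallyLE hsub)
      exact Filter.Eventually.of_forall (fun y => by positivity)
    have h5 := le_abs_self (∫ y in x..x0, 2 * inner ℝ (g y) (g' y))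
    rw [Real.norm_eq_abs] at h2
    linarith
  obtain ⟨x1, hx1, hmin⟩ := isCompact_Icc.exists_isMinOn (Set.nonempty_Icc.2 hab.le)
    (hch.continuousOn (s := Set.Icc a b))
  have hm : (b - a) * ‖g x1‖ ^ 2 ≤ ∫ x in Set.Icc a b, (‖g x‖ ^ 2 + ‖g' x‖ ^ 2) := by
    have h1 : ∫ _x in Set.Icc a b, ‖g x1‖ ^ 2 = (b - a) * ‖g x1‖ ^ 2 := by
      rw [setIntegral_const, Real.volume_real_Icc_of_le hab.le, smul_eq_mul]
    rw [← h1]
    refine setIntegral_mono_on ?_ hIi measurableSet_Icc (fun x hx => ?_)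
    · exact (continuous_const (y := ‖g x1‖ ^ 2)).integrableOn_Icc
    · have h2 : ‖g x1‖ ^ 2 ≤ ‖g x‖ ^ 2 := hmin hx
      have h3 : 0 ≤ ‖g' x‖ ^ 2 := by positivity
      linarith
  have h1 := hmove x1 hx1
  have hba : 0 < b - a := by linarith
  have h2 : ‖g x1‖ ^ 2 ≤ 1 / (b - a) * ∫ x in Set.Icc a b, (‖g x‖ ^ 2 + ‖g' x‖ ^ 2) := by
    rw [one_div, inv_mul_eq_div, le_div_iff₀ hba]
    linarith
  linarith

lemma sob_enn (g g' : ℝ → ℂ) (hg : ∀ x, HasDerivAt g (g' x) x) (hc : Continuous g')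
    (a b x0 C : ℝ) (hab : a < b) (ha : a ≤ x0) (hb : x0 ≤ b) (hC : 1 + 1 / (b - a) ≤ C) :
    ENNReal.ofReal (‖g x0‖ ^ 2) ≤ ENNReal.ofReal C *
      ∫⁻ x in Set.Icc a b, (ENNReal.ofReal (‖g x‖ ^ 2) + ENNReal.ofReal (‖g' x‖ ^ 2)) := by
  have hcg : Continuous g := continuous_iff_continuousAt.2 (fun x => (hg x).continuousAt)
  have hck : Continuous (fun x => ‖g x‖ ^ 2 + ‖g' x‖ ^ 2) := by fun_prop
  have hIi : IntegrableOn (fun x => ‖g x‖ ^ 2 + ‖g' x‖ ^ 2) (Set.Icc a b) := hck.integrableOn_Icc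
  have h0 : 0 ≤ ∫ x in Set.Icc a b, (‖g x‖ ^ 2 + ‖g' x‖ ^ 2) :=
    integral_nonneg (fun x => by positivity)
  have hba : 0 < b - a := by linarith
  have hC0 : 0 ≤ C := le_trans (by positivity) hC
  have h1 : ∫⁻ x in Set.Icc a b, (ENNReal.ofReal (‖g x‖ ^ 2) + ENNReal.ofReal (‖g' x‖ ^ 2)) =
      ENNReal.ofReal (∫ x in Set.Icc a b, (‖g x‖ ^ 2 + ‖g' x‖ ^ 2)) := by
    rw [ofReal_integral_eq_lintegral_ofReal hIi (Filter.Eventually.of_forall (fun x => by positivity))]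
    refine lintegral_congr (fun x => ?_)
    rw [ENNReal.ofReal_add (by positivity) (by positivity)]
  rw [h1, ← ENNReal.ofReal_mul hC0]
  refine ENNReal.ofReal_le_ofReal ((sob_real g g' hg hc a b x0 hab ha hb).trans ?_)
  exact mul_le_mul_of_nonneg_right hC h0

/-- the row -/
theorem pf_SOB : Pool.Agent.H27.ZF.T_SOB := by
  intro b1 b2 hb
  have hb0 : 0 < b2 - b1 := by linarith
  refine ⟨(1 + 1 / (b2 - b1)) * 3, by positivity, ?_⟩
  intro f P t0 hf hP s hs1 hs2 hs3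
  have hd1 : Differentiable ℂ (deriv f) := hf.deriv
  have hd2 : Differentiable ℂ (deriv (deriv f)) := hd1.deriv
  obtain ⟨hP1, hP2⟩ := abs_le.1 hs3
  -- the derivative in the direction of the real axis
  have hre : ∀ (F : ℂ → ℂ), Differentiable ℂ F → ∀ (t : ℝ) (σ : ℝ),
      HasDerivAt (fun σ : ℝ => F (σ + (t + t0) * Complex.I)) (deriv F (σ + (t + t0) * Complex.I)) σ := by
    intro F hF t σ
    have h1 : HasDerivAt (fun σ : ℝ => ((σ : ℂ) + (t + t0) * Complex.I)) 1 σ :=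
      (Complex.ofRealCLM.hasDerivAt (x := σ)).add_const _
    have h2 := (hF ((σ : ℂ) + (t + t0) * Complex.I)).hasDerivAt.comp σ h1
    rw [mul_one] at h2
    exact h2
  have him : ∀ (F : ℂ → ℂ), Differentiable ℂ F → ∀ (σ : ℝ) (t : ℝ),
      HasDerivAt (fun t : ℝ => F (σ + (t + t0) * Complex.I))
        (deriv F (σ + (t + t0) * Complex.I) * Complex.I) t := by
    intro F hF σ t
    have h0 : HasDerivAt (fun t : ℝ => (t : ℂ)) 1 t := Complex.ofRealCLM.hasDerivAt (x := t)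
    have h1 : HasDerivAt (fun t : ℝ => ((σ : ℂ) + ((t : ℂ) + t0) * Complex.I)) (1 * Complex.I) t :=
      ((h0.add_const (t0 : ℂ)).mul_const Complex.I).const_add _
    rw [one_mul] at h1
    exact (hF ((σ : ℂ) + (t + t0) * Complex.I)).hasDerivAt.comp t h1
  have hcre : ∀ (F : ℂ → ℂ), Differentiable ℂ F → ∀ t : ℝ,
      Continuous (fun σ : ℝ => F (σ + (t + t0) * Complex.I)) := by
    intro F hF t
    exact hF.continuous.comp (by fun_prop)
  have hcim : ∀ (F : ℂ → ℂ), Differentiable ℂ F → ∀ σ : ℝ,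
      Continuous (fun t : ℝ => F (σ + (t + t0) * Complex.I)) := by
    intro F hF σ
    exact hF.continuous.comp (by fun_prop)
  have hpt : (s : ℂ) = (s.re : ℂ) + (((s.im - t0 : ℝ) : ℂ) + t0) * Complex.I := by
    apply Complex.ext <;> simp
  have h1 := sob_enn (fun σ : ℝ => f (σ + (((s.im - t0 : ℝ) : ℂ) + t0) * Complex.I))
    (fun σ : ℝ => deriv f (σ + (((s.im - t0 : ℝ) : ℂ) + t0) * Complex.I))
    (hre f hf (s.im - t0)) (hcre _ hd1 (s.im - t0)) b1 b2 s.re (1 + 1 / (b2 - b1)) hb hs1 hs2 le_rfl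
  simp only [← hpt] at h1
  have hC2 : 1 + 1 / (P - -P) ≤ (3 / 2 : ℝ) := by
    have h2 : (2 : ℝ) ≤ P - -P := by linarith
    have h3 : 1 / (P - -P) ≤ 1 / (2 : ℝ) := one_div_le_one_div_of_le (by norm_num) h2
    linarith
  have key : ∀ (F : ℂ → ℂ), Differentiable ℂ F → Differentiable ℂ (deriv F) → ∀ σ : ℝ,
      ENNReal.ofReal (‖F (σ + (((s.im - t0 : ℝ) : ℂ) + t0) * Complex.I)‖ ^ 2) ≤
        ENNReal.ofReal (3 / 2) * ∫⁻ t in Set.Icc (-P) P,
          (ENNReal.ofReal (‖F (σ + (t + t0) * Complex.I)‖ ^ 2) +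
            ENNReal.ofReal (‖deriv F (σ + (t + t0) * Complex.I)‖ ^ 2)) := by
    intro F hF hF' σ
    have h2 := sob_enn (fun t : ℝ => F (σ + (t + t0) * Complex.I))
      (fun t : ℝ => deriv F (σ + (t + t0) * Complex.I) * Complex.I)
      (him F hF σ) ((hcim _ hF' σ).mul continuous_const) (-P) P (s.im - t0) (3 / 2) (by linarith)
      (by linarith) (by linarith) hC2
    simp only [norm_mul, Complex.norm_I, mul_one] at h2
    exact h2
  refine h1.trans ?_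
  rw [ENNReal.ofReal_mul (by positivity), mul_assoc]
  refine mul_le_mul_right ?_ _
  rw [← lintegral_const_mul' _ _ ENNReal.ofReal_ne_top]
  refine lintegral_mono (fun σ => ?_)
  have e3 : ENNReal.ofReal 3 = ENNReal.ofReal (3 / 2) + ENNReal.ofReal (3 / 2) := by
    rw [← ENNReal.ofReal_add (by norm_num) (by norm_num)]
    norm_num
  rw [e3, add_mul (ENNReal.ofReal (3 / 2)) (ENNReal.ofReal (3 / 2))]
  refine add_le_add ((key f hf hd1 σ).trans ?_) ((key (deriv f) hd1 hd2 σ).trans ?_)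
  · refine mul_le_mul_right (lintegral_mono (fun t => ?_)) _
    exact le_self_add
  · refine mul_le_mul_right (lintegral_mono (fun t => ?_)) _
    rw [add_assoc]
    exact le_add_self

end Pool.Agent.H1.ZF
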